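import Pool.Agent.Helper259.HtDef

/-!
Project UB (helper285): almost all maps of the projective line over a number field `K` have no
preperiodic point of degree at most `D` over `K`; the same for Hénon maps.
Definitions and the statements of the parts.
-/

set_option autoImplicit false

namespace Pool.Agent.W285.UB

open NumberField Height Module
open Pool.Agent.Helper259.AbsHt

/-- absolute multiplicative Weil height of the point `(v 0 : v 1)` of the projective line -/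
noncomputable def ht (v : Fin 2 → Qbar) : ℝ := Real.exp (absLogHeight v)

/-- the value at `v` of the binary form `f_0 v_1^d + f_1 v_0 v_1^(d-1) + ... + f_d v_0^d` -/
def fval {S R : Type} [CommRing S] [CommRing R] (g : S →+* R) {d : ℕ} (f : Fin (d + 1) → S)
    (v : Fin 2 → R) : R :=
  ∑ i, g (f i) * v 0 ^ (i : ℕ) * v 1 ^ (d - i)

/-- the map given by a pair of binary forms -/
def pval {S R : Type} [CommRing S] [CommRing R] (g : S →+* R) {d : ℕ}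
    (φ : Fin 2 → Fin (d + 1) → S) (v : Fin 2 → R) : Fin 2 → R :=
  fun a => fval g (φ a) v

/-- the algebraic integers of `K` whose coordinates in the integral basis are at most `H` -/
def ball (K : Type) [Field K] [NumberField K] (H : ℕ) : Set (𝓞 K) :=
  {z | ∀ j, |(RingOfIntegers.basis K).repr z j| ≤ (H : ℤ)}

/-- the embedding of the integers of `K` in `Qbar` given by an embedding of `K` -/
noncomputable def io {K : Type} [Field K] (ι : K →+* Qbar) : 𝓞 K →+* Qbar :=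
  ι.comp (algebraMap (𝓞 K) K)

/-- every conjugate of `z` has absolute value at most `B` -/
def house {K : Type} [Field K] (B : ℝ) (z : 𝓞 K) : Prop :=
  ∀ σ : K →+* ℂ, ‖σ (z : K)‖ ≤ B

/-- normalised points of the projective line over `Qbar` of degree at most `E` -/
def pt (E : ℕ) : Set (Fin 2 → Qbar) :=
  {v | v = ![1, 0] ∨ ∃ α : Qbar, (minpoly ℚ α).natDegree ≤ E ∧ v = ![α, 1]}

/-- those of height at most `X` -/
def pts (E : ℕ) (X : ℝ) : Set (Fin 2 → Qbar) := {v | v ∈ pt E ∧ ht v ≤ X}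

/-- HINT: heights of integral vectors -/
def S_HINT : Prop :=
  ∀ (K : Type) [Field K] [NumberField K] (ι : K →+* Qbar) (κ : Type) [Finite κ] (x : κ → 𝓞 K)
    (B : ℝ), 1 ≤ B → (∀ i, house B (x i)) → absLogHeight (fun i => io ι (x i)) ≤ Real.log B

/-- BALL: cardinality and size of the balls -/
def S_BALL : Prop :=
  ∀ (K : Type) [Field K] [NumberField K],
    (∀ H : ℕ, (ball K H).Finite ∧ (ball K H).ncard = (2 * H + 1) ^ finrank ℚ K) ∧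
    ∃ c : ℝ, 1 ≤ c ∧ ∀ H : ℕ, ∀ z ∈ ball K H, house (c * H) z

/-- ROOT: height of a zero of a form with integral coefficients -/
def S_ROOT : Prop :=
  ∀ d : ℕ, ∃ C : ℝ, 1 ≤ C ∧ ∀ (K : Type) [Field K] [NumberField K] (ι : K →+* Qbar) (B : ℝ),
    1 ≤ B → ∀ f : Fin (d + 1) → 𝓞 K, f ≠ 0 → (∀ i, house B (f i)) →
    ∀ v : Fin 2 → Qbar, v ≠ 0 → fval (io ι) f v = 0 → ht v ≤ C * B

/-- MODM: counting modulo `m` -/
def S_MODM : Prop :=
  ∀ (K : Type) [Field K] [NumberField K] (ι : K →+* Qbar) (d H m : ℕ), 1 ≤ m →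
    ∀ v : Fin 2 → Qbar, v ≠ 0 →
    (∀ f : Fin (d + 1) → 𝓞 K,
      (∀ i j, (m : ℤ) * |(RingOfIntegers.basis K).repr (f i) j| ≤ 2 * (H : ℤ)) →
      fval (io ι) f v = 0 → f = 0) →
    ∀ t : Qbar, ({f | (∀ i, f i ∈ ball K H) ∧ fval (io ι) f v = t} :
      Set (Fin (d + 1) → 𝓞 K)).ncard ≤ m ^ (finrank ℚ K * d)

/-- FIB: the fibres of the evaluation at a point -/
def S_FIB : Prop :=
  ∀ (K : Type) [Field K] [NumberField K] (ι : K →+* Qbar) (d : ℕ), ∃ C : ℝ, 0 ≤ C ∧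
    ∀ H : ℕ, 1 ≤ H → ∀ v : Fin 2 → Qbar, v ≠ 0 → ∀ t : Qbar,
      (({f | (∀ i, f i ∈ ball K H) ∧ fval (io ι) f v = t} :
        Set (Fin (d + 1) → 𝓞 K)).ncard : ℝ) ≤ C * (1 + H / ht v) ^ (finrank ℚ K * d)

/-- MINP: the minimal polynomial -/
def S_MINP : Prop :=
  ∀ E : ℕ, ∃ C : ℝ, 1 ≤ C ∧ ∀ α : Qbar, (minpoly ℚ α).natDegree ≤ E →
    ∃ P : Polynomial ℤ, P ≠ 0 ∧ P.natDegree ≤ E ∧ Polynomial.aeval α P = 0 ∧
      ∀ i, (|P.coeff i| : ℝ) ≤ C * ht ![α, 1] ^ E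

/-- COUNT: number of points of bounded degree and height -/
def S_COUNT : Prop :=
  ∀ E : ℕ, ∃ C : ℝ, 1 ≤ C ∧ ∀ X : ℝ, 1 ≤ X → (pts E X).Finite ∧
    ((pts E X).ncard : ℝ) ≤ C * X ^ (E * (E + 1))

/-- SYL: the identity of Sylvester with bounds -/
def S_SYL : Prop :=
  ∀ d : ℕ, 1 ≤ d → ∃ C : ℝ, 1 ≤ C ∧ ∀ (K : Type) [Field K] [NumberField K] (ι : K →+* Qbar)
    (B : ℝ), 1 ≤ B → ∀ φ : Fin 2 → Fin (d + 1) → 𝓞 K, (∀ a i, house B (φ a i)) →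
    (∀ v : Fin 2 → Qbar, pval (io ι) φ v = 0 → v = 0) →
    ∃ R : 𝓞 K, R ≠ 0 ∧ ∃ A : Fin 2 → Fin 2 → Fin d → 𝓞 K,
      (∀ k a i, house (C * B ^ (2 * d - 1)) (A k a i)) ∧
      ∀ (v : Fin 2 → Qbar) (k : Fin 2), io ι R * v k ^ (2 * d - 1) =
        ∑ a, (∑ i : Fin d, io ι (A k a i) * v 0 ^ (i : ℕ) * v 1 ^ (d - 1 - i)) *
          fval (io ι) (φ a) v

/-- LOW: a map multiplies the height by its degree up to an explicit error -/
def S_LOW : Prop :=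
  ∀ d : ℕ, 1 ≤ d → ∃ C : ℝ, 1 ≤ C ∧ ∀ (K : Type) [Field K] [NumberField K] (ι : K →+* Qbar)
    (B : ℝ), 1 ≤ B → ∀ φ : Fin 2 → Fin (d + 1) → 𝓞 K, (∀ a i, house B (φ a i)) →
    (∀ v : Fin 2 → Qbar, pval (io ι) φ v = 0 → v = 0) →
    ∀ v : Fin 2 → Qbar, v ≠ 0 → ht v ^ d ≤ C * B ^ (2 * d - 1) * ht (pval (io ι) φ v)

/-- DEG: number of degenerate pairs -/
def S_DEG : Prop :=
  ∀ (K : Type) [Field K] [NumberField K] (ι : K →+* Qbar) (d : ℕ), 1 ≤ d → ∃ C : ℝ,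
    ∀ H : ℕ, 1 ≤ H → (({φ | (∀ a i, φ a i ∈ ball K H) ∧
      ∃ v : Fin 2 → Qbar, v ≠ 0 ∧ pval (io ι) φ v = 0} :
      Set (Fin 2 → Fin (d + 1) → 𝓞 K)).ncard : ℝ) ≤ C * (H : ℝ) ^ (finrank ℚ K * (2 * d + 1))

/-- REAL: the final sum -/
def S_REAL : Prop :=
  ∀ n d a p q : ℕ, 1 ≤ n → 1 ≤ p → a + 2 ≤ d → ((a : ℝ) + 1) * q / p ≤ d + 3 / 4 →
    ∀ C : ℝ, ∃ C' : ℝ, ∀ H M : ℕ, 1 ≤ H → (M : ℝ) ^ p ≤ C * (H : ℝ) ^ q →
      ∑ k ∈ Finset.Icc 1 M, (k : ℝ) ^ a * (1 + 2 * H / k) ^ (n * d) ≤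
        C' * (H : ℝ) ^ ((n : ℝ) * (d + 1) - 1 / 4)

/-- CNT: the pairs of forms which do not increase the height of some point of degree `≤ E` -/
def S_CNT : Prop :=
  ∀ (K : Type) [Field K] [NumberField K] (ι : K →+* Qbar) (d E : ℕ), 1 ≤ E →
    4 * (E * (E + 1)) + 2 ≤ d → ∃ C : ℝ, ∀ H : ℕ, 1 ≤ H →
    (({φ | (∀ a i, φ a i ∈ ball K H) ∧ (∀ v : Fin 2 → Qbar, pval (io ι) φ v = 0 → v = 0) ∧
      ∃ w ∈ pt E, ∃ u ∈ pt E, ht u ≤ ht w ∧ ∃ t : Qbar, pval (io ι) φ w = t • u} :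
      Set (Fin 2 → Fin (d + 1) → 𝓞 K)).ncard : ℝ) ≤
      C * (H : ℝ) ^ ((finrank ℚ K : ℝ) * (2 * d + 2) - 1 / 4)

/-- EMB: from a point over an extension to points of `Qbar` -/
def S_EMB : Prop :=
  ∀ (K : Type) [Field K] [NumberField K] (ι : K →+* Qbar) (d D : ℕ)
    (φ : Fin 2 → Fin (d + 1) → 𝓞 K), (∀ v : Fin 2 → Qbar, pval (io ι) φ v = 0 → v = 0) →
    ∀ (L : Type) [Field L] [NumberField L] [Algebra K L], finrank K L ≤ D →
    ∀ v : Fin 2 → L, v ≠ 0 →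
      mulHeight (pval ((algebraMap K L).comp (algebraMap (𝓞 K) K)) φ v) ≤ mulHeight v →
      ∃ w ∈ pt (D * finrank ℚ K), ∃ u ∈ pt (D * finrank ℚ K), ht u ≤ ht w ∧
        ∃ t : Qbar, pval (io ι) φ w = t • u

/-- PER: a map without common zero increasing all heights over `L` has no preperiodic point -/
def S_PER : Prop :=
  ∀ (K : Type) [Field K] [NumberField K] (d : ℕ) (φ : Fin 2 → Fin (d + 1) → 𝓞 K)
    (L : Type) [Field L] [NumberField L] [Algebra K L],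
    (∀ v : Fin 2 → L, v ≠ 0 →
      mulHeight v < mulHeight (pval ((algebraMap K L).comp (algebraMap (𝓞 K) K)) φ v)) →
    ¬ ∃ v : Fin 2 → L, v ≠ 0 ∧ ∃ m n : ℕ, m < n ∧ ∃ c : L, c ≠ 0 ∧
      (pval ((algebraMap K L).comp (algebraMap (𝓞 K) K)) φ)^[n] v =
        c • (pval ((algebraMap K L).comp (algebraMap (𝓞 K) K)) φ)^[m] v

/-- HCNT: Hénon maps -/
def S_HCNT : Prop :=
  ∀ (K : Type) [Field K] [NumberField K] (ι : K →+* Qbar) (d E : ℕ), 1 ≤ E →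
    6 * (E * (E + 1)) + 4 ≤ d → ∃ C : ℝ, ∀ H : ℕ, 1 ≤ H →
    (({φ | (∀ i, φ.1 i ∈ ball K H) ∧ φ.2 ∈ ball K H ∧ φ.1 (Fin.last d) ≠ 0 ∧
      ∃ α β γ : Qbar, (minpoly ℚ α).natDegree ≤ E ∧ (minpoly ℚ β).natDegree ≤ E ∧
        (minpoly ℚ γ).natDegree ≤ E ∧ ht ![β, 1] ≤ ht ![α, 1] ∧ ht ![γ, 1] ≤ ht ![α, 1] ∧
        fval (io ι) φ.1 ![α, 1] = β + io ι φ.2 * γ} :
      Set ((Fin (d + 1) → 𝓞 K) × 𝓞 K)).ncard : ℝ) ≤
      C * (H : ℝ) ^ ((finrank ℚ K : ℝ) * (d + 2) - 1 / 4)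

/-- HPER: a periodic point of a Hénon map over an extension gives such a triple -/
def S_HPER : Prop :=
  ∀ (K : Type) [Field K] [NumberField K] (ι : K →+* Qbar) (d D : ℕ)
    (f : Fin (d + 1) → 𝓞 K) (δ : 𝓞 K) (L : Type) [Field L] [NumberField L] [Algebra K L],
    finrank K L ≤ D →
    (∃ P : L × L, ∃ n : ℕ, 1 ≤ n ∧
      (fun Q : L × L => (Q.2, (∑ i : Fin (d + 1),
        algebraMap K L (algebraMap (𝓞 K) K (f i)) * Q.2 ^ (i : ℕ)) -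
        algebraMap K L (algebraMap (𝓞 K) K δ) * Q.1))^[n] P = P) →
      ∃ α β γ : Qbar, (minpoly ℚ α).natDegree ≤ D * finrank ℚ K ∧
        (minpoly ℚ β).natDegree ≤ D * finrank ℚ K ∧ (minpoly ℚ γ).natDegree ≤ D * finrank ℚ K ∧
        ht ![β, 1] ≤ ht ![α, 1] ∧ ht ![γ, 1] ≤ ht ![α, 1] ∧
        fval (io ι) f ![α, 1] = β + io ι δ * γ

end Pool.Agent.W285.UB
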