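import Pool.Agent.W285.UB.Fin2
import Pool.Agent.W285.UB.HCnt2
import Pool.Agent.W762.UB.Hint
import Pool.Agent.W108.UB.Ball
import Pool.Agent.W327.UB.Root
import Pool.Agent.W15.UB.Fib
import Pool.Agent.W976.UB.Minp
import Pool.Agent.W359.UB.Count
import Pool.Agent.W389.UB.Low
import Pool.Agent.W214.UB.Deg
import Pool.Agent.W976.UB.Real
import Pool.Agent.W540.UB.Emb
import Pool.Agent.W305.UB.Per
import Pool.Agent.W64.UB.HPer2
import Pool.Agent.W12.UB.Cnt
import Pool.Agent.W12.UB.Syl
import Pool.Agent.W452.UB.Modm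

/-! Project UB (helper285): all parts together (proved by helpers 762, 108, 327, 452, 15, 976, 359,
12, 389, 214, 540, 305, 64, 803). -/

set_option autoImplicit false

namespace Pool.Agent.W285.UB

theorem p_ball : S_BALL := Pool.Agent.W108.UB.ball

theorem p_fib : S_FIB :=
  Pool.Agent.W15.UB.fib p_ball (Pool.Agent.W327.UB.root Pool.Agent.W762.UB.hint)
    Pool.Agent.W452.UB.modm

theorem p_count : S_COUNT := Pool.Agent.W359.UB.count Pool.Agent.W976.UB.minp

theorem p_low : S_LOW := Pool.Agent.W389.UB.low Pool.Agent.W762.UB.hint Pool.Agent.W12.UB.Syl.syl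

theorem p_cnt : S_CNT :=
  Pool.Agent.W12.UB.Cnt.cnt p_ball p_count p_fib p_low Pool.Agent.W976.UB.real

theorem p_deg : S_DEG := Pool.Agent.W214.UB.deg p_ball

theorem p_emb : S_EMB := Pool.Agent.W540.UB.emb

theorem p_per : S_PER := Pool.Agent.W305.UB.per

theorem p_hcnt2 : S_HCNT2 :=
  hcnt2 Pool.Agent.W762.UB.hint p_ball p_count p_fib p_low Pool.Agent.W976.UB.real

theorem p_hper2 : S_HPER2 := Pool.Agent.W64.UB.hper2

end Pool.Agent.W285.UB
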