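import Pool.Agent.W285.UB.Stm2

/-!
Project UB (helper285): assembly for maps of the projective line.
-/

set_option autoImplicit false

namespace Pool.Agent.W285.UB

open NumberField Height Module
open Pool.Agent.Helper259.AbsHt

theorem exists_iota (K : Type) [Field K] [NumberField K] : Nonempty (K →+* Qbar) := by
  have h : Algebra.IsAlgebraic ℚ K := inferInstance
  exact ⟨(IsAlgClosed.lift (R := ℚ) (S := K) (M := AlgebraicClosure ℚ)).toRingHom⟩

/-- the ring homomorphism from the integers of `K` to an extension -/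
noncomputable def incl (K L : Type) [Field K] [Field L] [Algebra K L] : 𝓞 K →+* L :=
  (algebraMap K L).comp (algebraMap (𝓞 K) K)

theorem pval_map {S R T : Type} [CommRing S] [CommRing R] [CommRing T] (g : S →+* R)
    (h : R →+* T) {d : ℕ} (φ : Fin 2 → Fin (d + 1) → S) (v : Fin 2 → R) :
    pval (h.comp g) φ (fun i => h (v i)) = fun a => h (pval g φ v a) := by
  funext a
  simp only [pval, fval, map_sum, map_mul, map_pow, RingHom.comp_apply]

/-- no common zero in the algebraic closure of `K`, from `Qbar` -/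
theorem nozero_of_qbar {K : Type} [Field K] [NumberField K] (ι : K →+* Qbar) {d : ℕ}
    {φ : Fin 2 → Fin (d + 1) → 𝓞 K}
    (h : ∀ v : Fin 2 → Qbar, pval (io ι) φ v = 0 → v = 0) :
    ∀ v : Fin 2 → AlgebraicClosure K, pval (incl K (AlgebraicClosure K)) φ v = 0 → v = 0 := by
  intro v hv
  letI : Algebra K Qbar := ι.toAlgebra
  have halg : Algebra.IsAlgebraic K (AlgebraicClosure K) := inferInstance
  let τ : AlgebraicClosure K →ₐ[K] Qbar := IsAlgClosed.lift
  have hio : io ι = (τ : AlgebraicClosure K →+* Qbar).comp (incl K (AlgebraicClosure K)) := by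
    ext x
    simp only [io, incl, RingHom.comp_apply]
    exact (τ.commutes _).symm
  have h1 := h (fun i => τ (v i)) (by
    rw [hio]
    have := pval_map (incl K (AlgebraicClosure K)) (τ : AlgebraicClosure K →+* Qbar) φ v
    refine this.trans ?_
    funext a
    rw [hv]
    simp)
  funext i
  have h2 := congrFun h1 i
  simp only [Pi.zero_apply] at h2 ⊢
  exact (map_eq_zero τ).1 h2

/-- the bad pairs -/
def badP (K : Type) [Field K] [NumberField K] (D d H : ℕ) :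
    Set (Fin 2 → Fin (d + 1) → 𝓞 K) :=
  {φ | (∀ a i, φ a i ∈ ball K H) ∧
    ¬ ((∀ v : Fin 2 → AlgebraicClosure K, pval (incl K (AlgebraicClosure K)) φ v = 0 → v = 0) ∧
      ∀ (L : Type) [Field L] [NumberField L] [Algebra K L], finrank K L ≤ D →
        ∀ v : Fin 2 → L, v ≠ 0 → mulHeight v < mulHeight (pval (incl K L) φ v))}

theorem box_finite {K : Type} [Field K] [NumberField K] (hball : S_BALL) (d H : ℕ) :
    ({φ | ∀ a i, φ a i ∈ ball K H} : Set (Fin 2 → Fin (d + 1) → 𝓞 K)).Finite := by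
  have hf := ((hball K).1 H).1
  have : ({φ | ∀ a i, φ a i ∈ ball K H} : Set (Fin 2 → Fin (d + 1) → 𝓞 K)) =
      Set.pi Set.univ (fun _ => Set.pi Set.univ (fun _ => ball K H)) := by
    ext φ
    simp [Set.mem_pi]
  rw [this]
  exact Set.Finite.pi (fun _ => Set.Finite.pi (fun _ => hf))

theorem box_ncard {K : Type} [Field K] [NumberField K] (hball : S_BALL) (d H : ℕ) :
    ({φ | ∀ a i, φ a i ∈ ball K H} : Set (Fin 2 → Fin (d + 1) → 𝓞 K)).ncard =
      (2 * H + 1) ^ (finrank ℚ K * (2 * d + 2)) := by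
  classical
  obtain ⟨hf, hc⟩ := (hball K).1 H
  have : ({φ | ∀ a i, φ a i ∈ ball K H} : Set (Fin 2 → Fin (d + 1) → 𝓞 K)) =
      ((Fintype.piFinset fun _ => Fintype.piFinset fun _ => hf.toFinset :
        Finset (Fin 2 → Fin (d + 1) → 𝓞 K)) : Set (Fin 2 → Fin (d + 1) → 𝓞 K)) := by
    ext φ
    simp [Fintype.mem_piFinset]
  rw [this, Set.ncard_coe_finset, Fintype.card_piFinset, Finset.prod_const,
    Fintype.card_piFinset, Finset.prod_const, ← Set.ncard_eq_toFinset_card _ hf, hc]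
  simp only [Finset.card_univ, Fintype.card_fin]
  rw [← pow_mul, ← pow_mul]
  congr 1
  ring

theorem fin1 (hball : S_BALL) (hcnt : S_CNT) (hdeg : S_DEG) (hemb : S_EMB)
    (K : Type) [Field K] [NumberField K] (D d : ℕ) (hD : 1 ≤ D)
    (hd : 4 * (D * finrank ℚ K * (D * finrank ℚ K + 1)) + 2 ≤ d) :
    ∃ C : ℝ, ∀ H : ℕ, 1 ≤ H → ((badP K D d H).ncard : ℝ) ≤
      C * (H : ℝ) ^ ((finrank ℚ K : ℝ) * (2 * d + 2) - 1 / 4) := by
  obtain ⟨ι⟩ := exists_iota K
  have hn : 0 < finrank ℚ K := finrank_pos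
  obtain ⟨C1, hC1⟩ := hdeg K ι d (by omega)
  obtain ⟨C2, hC2⟩ := hcnt K ι d (D * finrank ℚ K) (Nat.mul_pos hD hn) hd
  refine ⟨|C1| + C2, fun H hH => ?_⟩
  have hsub : badP K D d H ⊆
      ({φ | (∀ a i, φ a i ∈ ball K H) ∧ ∃ v : Fin 2 → Qbar, v ≠ 0 ∧ pval (io ι) φ v = 0} :
        Set (Fin 2 → Fin (d + 1) → 𝓞 K)) ∪
      {φ | (∀ a i, φ a i ∈ ball K H) ∧ (∀ v : Fin 2 → Qbar, pval (io ι) φ v = 0 → v = 0) ∧
        ∃ w ∈ pt (D * finrank ℚ K), ∃ u ∈ pt (D * finrank ℚ K), ht u ≤ ht w ∧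
          ∃ t : Qbar, pval (io ι) φ w = t • u} := by
    rintro φ ⟨hφ, hbad⟩
    by_cases hz : ∀ v : Fin 2 → Qbar, pval (io ι) φ v = 0 → v = 0
    · right
      refine ⟨hφ, hz, ?_⟩
      rw [not_and_or] at hbad
      rcases hbad with hbad | hbad
      · exact absurd (nozero_of_qbar ι hz) hbad
      · push Not at hbad
        obtain ⟨L, i1, i2, i3, hL, v, hv, hle⟩ := hbad
        exact hemb K ι d D φ hz L hL v hv hle
    · left
      push Not at hz
      obtain ⟨v, h1, h2⟩ := hz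
      exact ⟨hφ, v, h2, h1⟩
  have hfin1 : ({φ | (∀ a i, φ a i ∈ ball K H) ∧ ∃ v : Fin 2 → Qbar, v ≠ 0 ∧
      pval (io ι) φ v = 0} : Set (Fin 2 → Fin (d + 1) → 𝓞 K)).Finite :=
    (box_finite hball d H).subset fun φ h => h.1
  have hfin2 : ({φ | (∀ a i, φ a i ∈ ball K H) ∧
      (∀ v : Fin 2 → Qbar, pval (io ι) φ v = 0 → v = 0) ∧
        ∃ w ∈ pt (D * finrank ℚ K), ∃ u ∈ pt (D * finrank ℚ K), ht u ≤ ht w ∧
          ∃ t : Qbar, pval (io ι) φ w = t • u} : Set (Fin 2 → Fin (d + 1) → 𝓞 K)).Finite :=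
    (box_finite hball d H).subset fun φ h => h.1
  have h1 := Set.ncard_le_ncard hsub (hfin1.union hfin2)
  have h2 := h1.trans (Set.ncard_union_le _ _)
  have h3 := (Nat.cast_le (α := ℝ)).2 h2
  rw [Nat.cast_add] at h3
  refine h3.trans ?_
  rw [add_mul]
  refine add_le_add ((hC1 H hH).trans ?_) (hC2 H hH)
  have hH1 : (1 : ℝ) ≤ H := by exact_mod_cast hH
  have hn1 : (1 : ℝ) ≤ finrank ℚ K := by exact_mod_cast hn
  have h4 : (H : ℝ) ^ (finrank ℚ K * (2 * d + 1)) ≤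
      (H : ℝ) ^ ((finrank ℚ K : ℝ) * (2 * d + 2) - 1 / 4) := by
    rw [← Real.rpow_natCast]
    refine Real.rpow_le_rpow_of_exponent_le hH1 ?_
    push_cast
    nlinarith
  calc C1 * (H : ℝ) ^ (finrank ℚ K * (2 * d + 1))
      ≤ |C1| * (H : ℝ) ^ (finrank ℚ K * (2 * d + 1)) := by gcongr; exact le_abs_self _
    _ ≤ _ := by gcongr

/-- an elementary limit -/
theorem ratio_tendsto {N : ℕ} {C ε : ℝ} (hε : 0 < ε) {a b c : ℕ → ℝ} (ha : ∀ H, 0 ≤ a H)
    (hab : ∀ H, a H ≤ b H) (hb : ∀ H : ℕ, 1 ≤ H → b H ≤ C * (H : ℝ) ^ ((N : ℝ) - ε))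
    (hc : ∀ H : ℕ, (2 * (H : ℝ) + 1) ^ N - b H ≤ c H) :
    Filter.Tendsto (fun H : ℕ => a H / c H) Filter.atTop (nhds 0) := by
  have hlim : Filter.Tendsto (fun H : ℕ => 2 * |C| * (H : ℝ) ^ (-ε)) Filter.atTop (nhds 0) := by
    have := (tendsto_rpow_neg_atTop hε).comp tendsto_natCast_atTop_atTop
    simpa using this.const_mul (2 * |C|)
  have hlim2 : ∀ᶠ H : ℕ in Filter.atTop, 2 * |C| * (H : ℝ) ^ (-ε) < 1 :=
    hlim.eventually (gt_mem_nhds one_pos)
  refine tendsto_of_tendsto_of_tendsto_of_le_of_le' tendsto_const_nhds hlim ?_ ?_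
  · filter_upwards [hlim2, Filter.eventually_ge_atTop 1] with H h1 h2
    have hH : (1 : ℝ) ≤ H := by exact_mod_cast h2
    have hHN : (0 : ℝ) < (H : ℝ) ^ N := by positivity
    have h3 : b H ≤ (H : ℝ) ^ N / 2 := by
      refine (hb H h2).trans ?_
      rw [Real.rpow_sub (by linarith), Real.rpow_natCast, Real.rpow_neg (by linarith)] at *
      rw [div_eq_mul_inv, show C * ((H : ℝ) ^ N * ((H : ℝ) ^ ε)⁻¹) =
        C * ((H : ℝ) ^ ε)⁻¹ * (H : ℝ) ^ N by ring]
      have h5 : 0 < ((H : ℝ) ^ ε)⁻¹ := by positivity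
      have h6 : C * ((H : ℝ) ^ ε)⁻¹ ≤ 1 / 2 := by nlinarith [le_abs_self C]
      nlinarith
    have h4 : (H : ℝ) ^ N ≤ (2 * (H : ℝ) + 1) ^ N := by
      gcongr
      linarith
    have h5 : 0 < c H := by linarith [hc H]
    exact div_nonneg (ha H) h5.le
  · filter_upwards [hlim2, Filter.eventually_ge_atTop 1] with H h1 h2
    have hH : (1 : ℝ) ≤ H := by exact_mod_cast h2
    have hHN : (0 : ℝ) < (H : ℝ) ^ N := by positivity
    have h3' : b H ≤ |C| * (H : ℝ) ^ (-ε) * (H : ℝ) ^ N := by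
      refine (hb H h2).trans ?_
      rw [Real.rpow_sub (by linarith), Real.rpow_natCast, Real.rpow_neg (by linarith)]
      rw [div_eq_mul_inv, show |C| * ((H : ℝ) ^ ε)⁻¹ * (H : ℝ) ^ N =
        |C| * ((H : ℝ) ^ N * ((H : ℝ) ^ ε)⁻¹) by ring]
      gcongr
      exact le_abs_self C
    have h3 : b H ≤ (H : ℝ) ^ N / 2 := by nlinarith
    have h4 : (H : ℝ) ^ N ≤ (2 * (H : ℝ) + 1) ^ N := by
      gcongr
      linarith
    have h5 : (H : ℝ) ^ N / 2 ≤ c H := by linarith [hc H]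
    have h6 : 0 < c H := by linarith
    rw [div_le_iff₀ h6]
    have h7 : 0 ≤ |C| * (H : ℝ) ^ (-ε) := by positivity
    nlinarith [hab H]

end Pool.Agent.W285.UB
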