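import Pool.Agent.W285.UB.Fin

/-!
Project UB (helper285): assembly for Hénon maps.
-/

set_option autoImplicit false

namespace Pool.Agent.W285.UB

open NumberField Height Module
open Pool.Agent.Helper259.AbsHt

/-- the Hénon map `(x, y) ↦ (y, (F(y) - δ x) / m)` -/
noncomputable def hen {K L : Type} [Field K] [Field L] [Algebra K L] {d : ℕ}
    (f : Fin (d + 1) → 𝓞 K) (δ m : 𝓞 K) (P : L × L) : L × L :=
  (P.2, ((∑ i : Fin (d + 1), algebraMap K L (f i : K) * P.2 ^ (i : ℕ)) -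
    algebraMap K L (δ : K) * P.1) / algebraMap K L (m : K))

/-- a periodic point of degree at most `B` -/
def hasPer {K : Type} [Field K] [NumberField K] {d : ℕ} (B : ℕ) (f : Fin (d + 1) → 𝓞 K)
    (δ m : 𝓞 K) : Prop :=
  ∃ (L : Type) (_ : Field L) (_ : NumberField L) (_ : Algebra K L), finrank K L ≤ B ∧
    ∃ P : L × L, ∃ n : ℕ, 1 ≤ n ∧ (hen f δ m)^[n] P = P

/-- the bad Hénon maps with denominator `m` -/
def badH (K : Type) [Field K] [NumberField K] (B d H : ℕ) (m : 𝓞 K) :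
    Set ((Fin (d + 1) → 𝓞 K) × 𝓞 K) :=
  {q | ((∀ i, q.1 i ∈ ball K H) ∧ q.2 ∈ ball K H) ∧
    ¬ (q.1 (Fin.last d) ≠ 0 ∧ q.2 ≠ 0 ∧ ¬ hasPer B q.1 q.2 m)}

theorem boxH_eq {K : Type} [Field K] [NumberField K] (hball : S_BALL) (d H : ℕ) :
    ({q | (∀ i, q.1 i ∈ ball K H) ∧ q.2 ∈ ball K H} : Set ((Fin (d + 1) → 𝓞 K) × 𝓞 K)) =
      (((Fintype.piFinset fun _ => ((hball K).1 H).1.toFinset) ×ˢ ((hball K).1 H).1.toFinset :
        Finset ((Fin (d + 1) → 𝓞 K) × 𝓞 K)) : Set ((Fin (d + 1) → 𝓞 K) × 𝓞 K)) := by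
  ext φ
  simp

theorem boxH_finite {K : Type} [Field K] [NumberField K] (hball : S_BALL) (d H : ℕ) :
    ({q | (∀ i, q.1 i ∈ ball K H) ∧ q.2 ∈ ball K H} :
      Set ((Fin (d + 1) → 𝓞 K) × 𝓞 K)).Finite := by
  rw [boxH_eq hball]
  exact Finset.finite_toSet _

theorem ball_card {K : Type} [Field K] [NumberField K] (hball : S_BALL) (H : ℕ) :
    ((hball K).1 H).1.toFinset.card = (2 * H + 1) ^ finrank ℚ K := by
  rw [← Set.ncard_eq_toFinset_card _ ((hball K).1 H).1, ((hball K).1 H).2]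

theorem boxH_ncard {K : Type} [Field K] [NumberField K] (hball : S_BALL) (d H : ℕ) :
    ({q | (∀ i, q.1 i ∈ ball K H) ∧ q.2 ∈ ball K H} :
      Set ((Fin (d + 1) → 𝓞 K) × 𝓞 K)).ncard = (2 * H + 1) ^ (finrank ℚ K * (d + 2)) := by
  rw [boxH_eq hball, Set.ncard_coe_finset, Finset.card_product, Fintype.card_piFinset,
    Finset.prod_const, ball_card hball H]
  simp only [Finset.card_univ, Fintype.card_fin]
  rw [← pow_mul, ← pow_add]
  exact congrArg _ (by ring)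

theorem last_zero_ncard {K : Type} [Field K] [NumberField K] (hball : S_BALL) (d H : ℕ) :
    ({q | ((∀ i, q.1 i ∈ ball K H) ∧ q.2 ∈ ball K H) ∧ q.1 (Fin.last d) = 0} :
      Set ((Fin (d + 1) → 𝓞 K) × 𝓞 K)).ncard ≤ (2 * H + 1) ^ (finrank ℚ K * (d + 1)) := by
  classical
  have h0 : ({q | ((∀ i, q.1 i ∈ ball K H) ∧ q.2 ∈ ball K H) ∧ q.1 (Fin.last d) = 0} :
      Set ((Fin (d + 1) → 𝓞 K) × 𝓞 K)) ⊆
      (((Fintype.piFinset fun i : Fin (d + 1) =>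
        if i = Fin.last d then ({0} : Finset (𝓞 K)) else ((hball K).1 H).1.toFinset) ×ˢ
          ((hball K).1 H).1.toFinset :
        Finset ((Fin (d + 1) → 𝓞 K) × 𝓞 K)) : Set ((Fin (d + 1) → 𝓞 K) × 𝓞 K)) := by
    rintro q ⟨⟨h1, h2⟩, h3⟩
    simp only [Finset.coe_product, Set.mem_prod, Finset.mem_coe, Fintype.mem_piFinset,
      Set.Finite.mem_toFinset]
    refine ⟨fun i => ?_, h2⟩
    split_ifs with h
    · rw [h, h3]; simp
    · simpa using h1 i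
  refine (Set.ncard_le_ncard h0 (Finset.finite_toSet _)).trans (le_of_eq ?_)
  rw [Set.ncard_coe_finset, Finset.card_product, Fintype.card_piFinset, Fin.prod_univ_castSucc]
  have : ∀ i : Fin d, (if i.castSucc = Fin.last d then ({0} : Finset (𝓞 K)) else
      ((hball K).1 H).1.toFinset) = ((hball K).1 H).1.toFinset := fun i => by
    rw [if_neg (Fin.castSucc_lt_last i).ne]
  simp only [this, if_true, Finset.prod_const, Finset.card_univ, Fintype.card_fin,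
    Finset.card_singleton, mul_one]
  rw [ball_card hball H, ← pow_mul, ← pow_add]
  exact congrArg _ (by ring)

theorem delta_zero_ncard {K : Type} [Field K] [NumberField K] (hball : S_BALL) (d H : ℕ) :
    ({q | ((∀ i, q.1 i ∈ ball K H) ∧ q.2 ∈ ball K H) ∧ q.2 = 0} :
      Set ((Fin (d + 1) → 𝓞 K) × 𝓞 K)).ncard ≤ (2 * H + 1) ^ (finrank ℚ K * (d + 1)) := by
  classical
  have h0 : ({q | ((∀ i, q.1 i ∈ ball K H) ∧ q.2 ∈ ball K H) ∧ q.2 = 0} :
      Set ((Fin (d + 1) → 𝓞 K) × 𝓞 K)) ⊆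
      (((Fintype.piFinset fun i : Fin (d + 1) => ((hball K).1 H).1.toFinset) ×ˢ {0} :
        Finset ((Fin (d + 1) → 𝓞 K) × 𝓞 K)) : Set ((Fin (d + 1) → 𝓞 K) × 𝓞 K)) := by
    rintro q ⟨⟨h1, h2⟩, h3⟩
    simp only [Finset.coe_product, Set.mem_prod, Finset.mem_coe, Fintype.mem_piFinset,
      Set.Finite.mem_toFinset]
    exact ⟨h1, by rw [h3]; simp⟩
  refine (Set.ncard_le_ncard h0 (Finset.finite_toSet _)).trans (le_of_eq ?_)
  rw [Set.ncard_coe_finset, Finset.card_product, Fintype.card_piFinset, Finset.prod_const,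
    ball_card hball H]
  simp only [Finset.card_univ, Fintype.card_fin, Finset.card_singleton, mul_one]
  rw [← pow_mul]

theorem fin2 (hball : S_BALL) (hcnt : S_HCNT2) (hper : S_HPER2)
    (K : Type) [Field K] [NumberField K] (B d : ℕ) (hB : 1 ≤ B)
    (hd : 6 * (B * finrank ℚ K * (B * finrank ℚ K + 1)) + 4 ≤ d) :
    ∃ C : ℝ, ∀ H : ℕ, 1 ≤ H → ∀ m : 𝓞 K, m ≠ 0 → (m = 1 ∨ m ∈ ball K H) →
      ((badH K B d H m).ncard : ℝ) ≤
      C * (H : ℝ) ^ ((finrank ℚ K : ℝ) * (d + 2) - 1 / 4) := by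
  obtain ⟨ι⟩ := exists_iota K
  have hn : 0 < finrank ℚ K := finrank_pos
  obtain ⟨c, hc1, hc⟩ := (hball K).2
  obtain ⟨C, hC⟩ := hcnt K ι d (B * finrank ℚ K) (Nat.mul_pos hB hn) hd c
  refine ⟨2 * 3 ^ (finrank ℚ K * (d + 1)) + C, fun H hH m hm hm1 => ?_⟩
  have hH1 : (1 : ℝ) ≤ H := by exact_mod_cast hH
  have hn1 : (1 : ℝ) ≤ finrank ℚ K := by exact_mod_cast hn
  have hhouse : house (c * H) m := by
    rcases hm1 with rfl | h
    · intro σ
      simp only [map_one, norm_one]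
      nlinarith
    · exact hc H m h
  have hsub : badH K B d H m ⊆
      (({q | ((∀ i, q.1 i ∈ ball K H) ∧ q.2 ∈ ball K H) ∧ q.1 (Fin.last d) = 0} :
        Set ((Fin (d + 1) → 𝓞 K) × 𝓞 K)) ∪
      {q | ((∀ i, q.1 i ∈ ball K H) ∧ q.2 ∈ ball K H) ∧ q.2 = 0}) ∪
      {φ | (∀ i, φ.1 i ∈ ball K H) ∧ φ.2 ∈ ball K H ∧ φ.1 (Fin.last d) ≠ 0 ∧
        ∃ α β γ : Qbar, (minpoly ℚ α).natDegree ≤ B * finrank ℚ K ∧
        (minpoly ℚ β).natDegree ≤ B * finrank ℚ K ∧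
        (minpoly ℚ γ).natDegree ≤ B * finrank ℚ K ∧
        ht ![β, 1] ≤ ht ![α, 1] ∧ ht ![γ, 1] ≤ ht ![α, 1] ∧
        fval (io ι) φ.1 ![α, 1] = io ι m * β + io ι φ.2 * γ} := by
    rintro q ⟨hq, hbad⟩
    by_cases h1 : q.1 (Fin.last d) = 0
    · exact Or.inl (Or.inl ⟨hq, h1⟩)
    · by_cases h2 : q.2 = 0
      · exact Or.inl (Or.inr ⟨hq, h2⟩)
      · right
        refine ⟨hq.1, hq.2, h1, ?_⟩
        have h3 : hasPer B q.1 q.2 m := by
          by_contra h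
          exact hbad ⟨h1, h2, h⟩
        obtain ⟨L, i1, i2, i3, hL, hP⟩ := h3
        exact hper K ι d B q.1 q.2 m hm L hL hP
  have hfin := boxH_finite (K := K) hball d H
  have h1 := Set.ncard_le_ncard hsub (((hfin.subset fun φ h => h.1).union
    (hfin.subset fun φ h => h.1)).union (hfin.subset fun φ h => ⟨h.1, h.2.1⟩))
  have h2 := h1.trans ((Set.ncard_union_le _ _).trans
    (Nat.add_le_add_right (Set.ncard_union_le _ _) _))
  have h3 := (Nat.cast_le (α := ℝ)).2 h2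
  rw [Nat.cast_add] at h3
  refine h3.trans ?_
  rw [add_mul]
  refine add_le_add ?_ (hC H hH m hm hhouse)
  have h5 : ((2 * H + 1 : ℕ) ^ (finrank ℚ K * (d + 1)) : ℝ) ≤
      3 ^ (finrank ℚ K * (d + 1)) * (H : ℝ) ^ ((finrank ℚ K : ℝ) * (d + 2) - 1 / 4) := by
    calc ((2 * H + 1 : ℕ) ^ (finrank ℚ K * (d + 1)) : ℝ)
        ≤ (3 * (H : ℝ)) ^ (finrank ℚ K * (d + 1)) := by
          gcongr
          push_cast
          linarith
      _ = 3 ^ (finrank ℚ K * (d + 1)) * (H : ℝ) ^ (finrank ℚ K * (d + 1)) := mul_pow _ _ _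
      _ ≤ _ := by
          gcongr
          rw [← Real.rpow_natCast]
          refine Real.rpow_le_rpow_of_exponent_le hH1 ?_
          push_cast
          nlinarith
  have h6 := last_zero_ncard (K := K) hball d H
  have h7 := delta_zero_ncard (K := K) hball d H
  have h8 := (Nat.cast_le (α := ℝ)).2 (Nat.add_le_add h6 h7)
  refine h8.trans ?_
  push_cast at h5 ⊢
  linarith

theorem fin3 (hball : S_BALL) (hcnt : S_HCNT2) (hper : S_HPER2)
    (K : Type) [Field K] [NumberField K] (B d : ℕ) (hB : 1 ≤ B)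
    (hd : 6 * (B * finrank ℚ K * (B * finrank ℚ K + 1)) + 4 ≤ d) :
    ∃ C : ℝ, ∀ H : ℕ, 1 ≤ H →
      (({p | (((∀ i, p.1.1 i ∈ ball K H) ∧ p.1.2 ∈ ball K H) ∧ p.2 ∈ ball K H) ∧
        ¬ (p.2 ≠ 0 ∧ p.1.1 (Fin.last d) ≠ 0 ∧ p.1.2 ≠ 0 ∧ ¬ hasPer B p.1.1 p.1.2 p.2)} :
        Set (((Fin (d + 1) → 𝓞 K) × 𝓞 K) × 𝓞 K)).ncard : ℝ) ≤
      C * (H : ℝ) ^ ((finrank ℚ K : ℝ) * (d + 3) - 1 / 4) := by
  classical
  obtain ⟨C, hC⟩ := fin2 hball hcnt hper K B d hB hd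
  refine ⟨3 ^ (finrank ℚ K) * (3 ^ (finrank ℚ K * (d + 2)) + |C|), fun H hH => ?_⟩
  have hn : 0 < finrank ℚ K := finrank_pos
  have hH1 : (1 : ℝ) ≤ H := by exact_mod_cast hH
  have hH0 : (0 : ℝ) < H := by linarith
  have hn1 : (1 : ℝ) ≤ finrank ℚ K := by exact_mod_cast hn
  set n := finrank ℚ K with hndef
  set bF : Finset (𝓞 K) := ((hball K).1 H).1.toFinset with hbF
  have hbc : bF.card = (2 * H + 1) ^ n := ball_card hball H
  set QF : Finset ((Fin (d + 1) → 𝓞 K) × 𝓞 K) := (Fintype.piFinset fun _ => bF) ×ˢ bF with hQF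
  have hQm : ∀ q, q ∈ QF ↔ (∀ i, q.1 i ∈ ball K H) ∧ q.2 ∈ ball K H := by
    intro q
    simp [hQF, hbF]
  have hQc : QF.card = (2 * H + 1) ^ (n * (d + 2)) := by
    have := boxH_ncard (K := K) hball d H
    rw [boxH_eq hball, Set.ncard_coe_finset] at this
    exact this
  set S : Finset (((Fin (d + 1) → 𝓞 K) × 𝓞 K) × 𝓞 K) := (QF ×ˢ bF).filter (fun p =>
    ¬ (p.2 ≠ 0 ∧ p.1.1 (Fin.last d) ≠ 0 ∧ p.1.2 ≠ 0 ∧ ¬ hasPer B p.1.1 p.1.2 p.2)) with hS
  have hset : ({p | (((∀ i, p.1.1 i ∈ ball K H) ∧ p.1.2 ∈ ball K H) ∧ p.2 ∈ ball K H) ∧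
        ¬ (p.2 ≠ 0 ∧ p.1.1 (Fin.last d) ≠ 0 ∧ p.1.2 ≠ 0 ∧ ¬ hasPer B p.1.1 p.1.2 p.2)} :
        Set (((Fin (d + 1) → 𝓞 K) × 𝓞 K) × 𝓞 K)) = (S : Set _) := by
    ext p
    rw [hS, Finset.coe_filter]
    simp only [Set.mem_ofPred_eq, Finset.mem_product, hQm]
    rw [hbF, Set.Finite.mem_toFinset]
  rw [hset, Set.ncard_coe_finset]
  have hmaps : Set.MapsTo (fun p : ((Fin (d + 1) → 𝓞 K) × 𝓞 K) × 𝓞 K => p.2) (S : Set _)
      (bF : Set _) := by
    intro p hp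
    rw [hS, Finset.mem_coe, Finset.mem_filter, Finset.mem_product] at hp
    exact hp.1.2
  rw [Finset.card_eq_sum_card_fiberwise hmaps]
  have hfib : ∀ m ∈ bF, ((S.filter (fun p => p.2 = m)).card : ℝ) ≤
      if m = 0 then ((2 * H + 1 : ℕ) ^ (n * (d + 2)) : ℝ) else
        |C| * (H : ℝ) ^ ((n : ℝ) * (d + 2) - 1 / 4) := by
    intro m hm
    split_ifs with h0
    · have h1 : (S.filter (fun p => p.2 = m)).card ≤ QF.card := by
        refine Finset.card_le_card_of_injOn (fun p => p.1) ?_ ?_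
        · intro p hp
          rw [Finset.mem_coe, Finset.mem_filter, hS, Finset.mem_filter, Finset.mem_product] at hp
          exact hp.1.1.1
        · intro p hp p' hp' h
          rw [Finset.mem_coe, Finset.mem_filter] at hp hp'
          exact Prod.ext h (hp.2.trans hp'.2.symm)
      rw [hQc] at h1
      exact_mod_cast h1
    · have hmb : m ∈ ball K H := by rwa [hbF, Set.Finite.mem_toFinset] at hm
      have h1 := hC H hH m h0 (Or.inr hmb)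
      have hfin : (badH K B d H m).Finite := (boxH_finite hball d H).subset fun q h => h.1
      have h2 : (S.filter (fun p => p.2 = m)).card ≤ (badH K B d H m).ncard := by
        rw [Set.ncard_eq_toFinset_card _ hfin]
        refine Finset.card_le_card_of_injOn (fun p => p.1) ?_ ?_
        · intro p hp
          rw [Finset.mem_coe, Finset.mem_filter, hS, Finset.mem_filter, Finset.mem_product] at hp
          obtain ⟨⟨⟨g1, g2⟩, g3⟩, g4⟩ := hp
          rw [Finset.mem_coe, Set.Finite.mem_toFinset]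
          refine ⟨(hQm _).1 g1, fun h => g3 ⟨?_, ?_⟩⟩
          · rw [g4]; exact h0
          · rw [g4]; exact h
        · intro p hp p' hp' h
          rw [Finset.mem_coe, Finset.mem_filter] at hp hp'
          exact Prod.ext h (hp.2.trans hp'.2.symm)
      calc ((S.filter (fun p => p.2 = m)).card : ℝ) ≤ ((badH K B d H m).ncard : ℝ) := by
            exact_mod_cast h2
        _ ≤ C * (H : ℝ) ^ ((n : ℝ) * (d + 2) - 1 / 4) := h1
        _ ≤ _ := by gcongr; exact le_abs_self C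
  push_cast
  refine (Finset.sum_le_sum hfib).trans ?_
  have hb3 : (bF.card : ℝ) ≤ 3 ^ n * (H : ℝ) ^ n := by
    rw [hbc, ← mul_pow]
    push_cast
    gcongr
    linarith
  have hsplit : ∀ m ∈ bF, (if m = 0 then ((2 * H + 1 : ℕ) ^ (n * (d + 2)) : ℝ) else
        |C| * (H : ℝ) ^ ((n : ℝ) * (d + 2) - 1 / 4)) ≤
      (if m = 0 then ((2 * H + 1 : ℕ) ^ (n * (d + 2)) : ℝ) else 0) +
        |C| * (H : ℝ) ^ ((n : ℝ) * (d + 2) - 1 / 4) := by
    intro m _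
    have : 0 ≤ |C| * (H : ℝ) ^ ((n : ℝ) * (d + 2) - 1 / 4) := by positivity
    split_ifs <;> linarith
  refine (Finset.sum_le_sum hsplit).trans ?_
  rw [Finset.sum_add_distrib, Finset.sum_const, nsmul_eq_mul]
  have hE : (H : ℝ) ^ ((n : ℝ) * (d + 3) - 1 / 4) =
      (H : ℝ) ^ n * (H : ℝ) ^ ((n : ℝ) * (d + 2) - 1 / 4) := by
    rw [← Real.rpow_natCast, ← Real.rpow_add hH0]
    congr 1
    ring
  have h1 : ∑ m ∈ bF, (if m = 0 then ((2 * H + 1 : ℕ) ^ (n * (d + 2)) : ℝ) else 0) ≤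
      3 ^ (n * (d + 2)) * (H : ℝ) ^ ((n : ℝ) * (d + 3) - 1 / 4) := by
    have h2 : ∑ m ∈ bF, (if m = 0 then ((2 * H + 1 : ℕ) ^ (n * (d + 2)) : ℝ) else 0) ≤
        ((2 * H + 1 : ℕ) ^ (n * (d + 2)) : ℝ) := by
      rw [Finset.sum_ite_eq' bF 0]
      split_ifs
      · exact le_rfl
      · positivity
    refine h2.trans ?_
    calc ((2 * H + 1 : ℕ) ^ (n * (d + 2)) : ℝ) ≤ (3 * (H : ℝ)) ^ (n * (d + 2)) := by
          gcongr
          push_cast
          linarith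
      _ = 3 ^ (n * (d + 2)) * (H : ℝ) ^ (n * (d + 2)) := mul_pow _ _ _
      _ ≤ _ := by
          gcongr
          rw [← Real.rpow_natCast]
          refine Real.rpow_le_rpow_of_exponent_le hH1 ?_
          push_cast
          nlinarith
  have h3 : (bF.card : ℝ) * (|C| * (H : ℝ) ^ ((n : ℝ) * (d + 2) - 1 / 4)) ≤
      3 ^ n * |C| * (H : ℝ) ^ ((n : ℝ) * (d + 3) - 1 / 4) := by
    rw [hE]
    calc (bF.card : ℝ) * (|C| * (H : ℝ) ^ ((n : ℝ) * (d + 2) - 1 / 4))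
        ≤ (3 ^ n * (H : ℝ) ^ n) * (|C| * (H : ℝ) ^ ((n : ℝ) * (d + 2) - 1 / 4)) := by gcongr
      _ = _ := by ring
  have h4 : 3 ^ (n * (d + 2)) * (H : ℝ) ^ ((n : ℝ) * (d + 3) - 1 / 4) ≤
      3 ^ n * 3 ^ (n * (d + 2)) * (H : ℝ) ^ ((n : ℝ) * (d + 3) - 1 / 4) := by
    have h5 : (1 : ℝ) ≤ 3 ^ n := one_le_pow₀ (by norm_num)
    have h6 : 0 ≤ 3 ^ (n * (d + 2)) * (H : ℝ) ^ ((n : ℝ) * (d + 3) - 1 / 4) := by positivity
    nlinarith
  calc _ ≤ 3 ^ n * 3 ^ (n * (d + 2)) * (H : ℝ) ^ ((n : ℝ) * (d + 3) - 1 / 4) +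
        3 ^ n * |C| * (H : ℝ) ^ ((n : ℝ) * (d + 3) - 1 / 4) := add_le_add (h1.trans h4) h3
    _ = _ := by ring

theorem box3_ncard {K : Type} [Field K] [NumberField K] (hball : S_BALL) (d H : ℕ) :
    ({p | ((∀ i, p.1.1 i ∈ ball K H) ∧ p.1.2 ∈ ball K H) ∧ p.2 ∈ ball K H} :
      Set (((Fin (d + 1) → 𝓞 K) × 𝓞 K) × 𝓞 K)).Finite ∧
    ({p | ((∀ i, p.1.1 i ∈ ball K H) ∧ p.1.2 ∈ ball K H) ∧ p.2 ∈ ball K H} :
      Set (((Fin (d + 1) → 𝓞 K) × 𝓞 K) × 𝓞 K)).ncard = (2 * H + 1) ^ (finrank ℚ K * (d + 3)) := by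
  have h : ({p | ((∀ i, p.1.1 i ∈ ball K H) ∧ p.1.2 ∈ ball K H) ∧ p.2 ∈ ball K H} :
      Set (((Fin (d + 1) → 𝓞 K) × 𝓞 K) × 𝓞 K)) =
      ((((Fintype.piFinset fun _ => ((hball K).1 H).1.toFinset) ×ˢ ((hball K).1 H).1.toFinset) ×ˢ
        ((hball K).1 H).1.toFinset : Finset (((Fin (d + 1) → 𝓞 K) × 𝓞 K) × 𝓞 K)) :
        Set (((Fin (d + 1) → 𝓞 K) × 𝓞 K) × 𝓞 K)) := by
    ext φ
    simp
  rw [h]
  refine ⟨Finset.finite_toSet _, ?_⟩
  rw [Set.ncard_coe_finset, Finset.card_product, Finset.card_product, Fintype.card_piFinset,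
    Finset.prod_const, ball_card hball H]
  simp only [Finset.card_univ, Fintype.card_fin]
  rw [← pow_mul, ← pow_add, ← pow_add]
  exact congrArg _ (by ring)

end Pool.Agent.W285.UB
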