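import Pool.Agent.W285.UB.Stm

/-!
Project UB (helper285): Hénon maps with a common denominator `m`,
`(x, y) ↦ (y, (F(y) - δ x) / m)`. For `m = 1` these are the maps of `Stm`.
-/

set_option autoImplicit false

namespace Pool.Agent.W285.UB

open NumberField Height Module
open Pool.Agent.Helper259.AbsHt

/-- HCNT2: as `S_HCNT`, uniformly in the denominator `m` -/
def S_HCNT2 : Prop :=
  ∀ (K : Type) [Field K] [NumberField K] (ι : K →+* Qbar) (d E : ℕ), 1 ≤ E →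
    6 * (E * (E + 1)) + 4 ≤ d → ∀ c : ℝ, ∃ C : ℝ, ∀ H : ℕ, 1 ≤ H → ∀ m : 𝓞 K, m ≠ 0 →
    house (c * H) m →
    (({φ | (∀ i, φ.1 i ∈ ball K H) ∧ φ.2 ∈ ball K H ∧ φ.1 (Fin.last d) ≠ 0 ∧
      ∃ α β γ : Qbar, (minpoly ℚ α).natDegree ≤ E ∧ (minpoly ℚ β).natDegree ≤ E ∧
        (minpoly ℚ γ).natDegree ≤ E ∧ ht ![β, 1] ≤ ht ![α, 1] ∧ ht ![γ, 1] ≤ ht ![α, 1] ∧
        fval (io ι) φ.1 ![α, 1] = io ι m * β + io ι φ.2 * γ} :
      Set ((Fin (d + 1) → 𝓞 K) × 𝓞 K)).ncard : ℝ) ≤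
      C * (H : ℝ) ^ ((finrank ℚ K : ℝ) * (d + 2) - 1 / 4)

/-- HPER2: as `S_HPER`, with a denominator `m` -/
def S_HPER2 : Prop :=
  ∀ (K : Type) [Field K] [NumberField K] (ι : K →+* Qbar) (d D : ℕ)
    (f : Fin (d + 1) → 𝓞 K) (δ m : 𝓞 K), m ≠ 0 →
    ∀ (L : Type) [Field L] [NumberField L] [Algebra K L],
    finrank K L ≤ D →
    (∃ P : L × L, ∃ n : ℕ, 1 ≤ n ∧
      (fun Q : L × L => (Q.2, ((∑ i : Fin (d + 1),
        algebraMap K L (algebraMap (𝓞 K) K (f i)) * Q.2 ^ (i : ℕ)) -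
        algebraMap K L (algebraMap (𝓞 K) K δ) * Q.1) /
        algebraMap K L (algebraMap (𝓞 K) K m)))^[n] P = P) →
      ∃ α β γ : Qbar, (minpoly ℚ α).natDegree ≤ D * finrank ℚ K ∧
        (minpoly ℚ β).natDegree ≤ D * finrank ℚ K ∧ (minpoly ℚ γ).natDegree ≤ D * finrank ℚ K ∧
        ht ![β, 1] ≤ ht ![α, 1] ∧ ht ![γ, 1] ≤ ht ![α, 1] ∧
        fval (io ι) f ![α, 1] = io ι m * β + io ι δ * γ

end Pool.Agent.W285.UB
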